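import Pool.Agent.QEP.Stmts

/-!
# QEP, rows COR and DIG
-/

set_option autoImplicit false

namespace Pool.Agent.QEP.H32

open Pool.Agent.QEP

theorem sx_block (sgn : SGNStmt) (q e : ℕ) (he : e < 9) :
    sx (9 * q + e) = sx q * (-1) ^ (e % 3) := by
  obtain ⟨-, -, s3, -, -⟩ := sgn
  have e1 : (9 * q + e) / 9 = q := by omega
  have e2 : (9 * q + e) % 3 = e % 3 := by omega
  rw [s3, e1, e2]

theorem sy_block (sgn : SGNStmt) (q e : ℕ) (he : e < 9) :
    sy (9 * q + e) = sy q * (-1) ^ (e / 3) := by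
  obtain ⟨-, -, -, s4, -⟩ := sgn
  have e1 : (9 * q + e) / 9 = q := by omega
  have e2 : (9 * q + e) % 9 / 3 = e / 3 := by omega
  rw [s4, e1, e2]

theorem cx_add (sgn : SGNStmt) (q d : ℕ) (hd : d ≤ 9) :
    cx (9 * q + d) = cx (9 * q) + sx q * ∑ e ∈ Finset.range d, (-1 : ℤ) ^ (e % 3) := by
  unfold cx
  rw [Finset.sum_range_add, Finset.mul_sum]
  congr 1
  refine Finset.sum_congr rfl fun e he => ?_
  exact sx_block sgn q e (lt_of_lt_of_le (Finset.mem_range.1 he) hd)

theorem cy_add (sgn : SGNStmt) (q d : ℕ) (hd : d ≤ 9) :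
    cy (9 * q + d) = cy (9 * q) + sy q * ∑ e ∈ Finset.range d, (-1 : ℤ) ^ (e / 3) := by
  unfold cy
  rw [Finset.sum_range_add, Finset.mul_sum]
  congr 1
  refine Finset.sum_congr rfl fun e he => ?_
  exact sy_block sgn q e (lt_of_lt_of_le (Finset.mem_range.1 he) hd)

theorem cx_mul (sgn : SGNStmt) (q : ℕ) : cx (9 * q) = 3 * cx q := by
  induction q with
  | zero => simp [cx]
  | succ q ih =>
    rw [mul_add, mul_one, cx_add sgn q 9 le_rfl, ih]
    have h1 : cx (q + 1) = cx q + sx q := by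
      unfold cx
      rw [Finset.sum_range_succ]
    have h2 : ∑ e ∈ Finset.range 9, (-1 : ℤ) ^ (e % 3) = 3 := by decide
    rw [h1, h2]
    ring

theorem cy_mul (sgn : SGNStmt) (q : ℕ) : cy (9 * q) = 3 * cy q := by
  induction q with
  | zero => simp [cy]
  | succ q ih =>
    rw [mul_add, mul_one, cy_add sgn q 9 le_rfl, ih]
    have h1 : cy (q + 1) = cy q + sy q := by
      unfold cy
      rw [Finset.sum_range_succ]
    have h2 : ∑ e ∈ Finset.range 9, (-1 : ℤ) ^ (e / 3) = 3 := by decide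
    rw [h1, h2]
    ring

theorem cor (sgn : SGNStmt) : CORStmt := by
  refine ⟨fun q d hd => ?_, fun q d hd => ?_⟩
  · rw [cx_add sgn q d hd, cx_mul sgn]
  · rw [cy_add sgn q d hd, cy_mul sgn]

theorem dig (sgn : SGNStmt) (cor : CORStmt) : DIGStmt := by
  have hs1 := sgn.1
  have hs2 := sgn.2.1
  refine ⟨fun i => ?_, fun i => ?_⟩
  · obtain ⟨q, d, hd, rfl⟩ : ∃ q d, d < 9 ∧ i = 9 * q + d :=
      ⟨i / 9, i % 9, Nat.mod_lt _ (by norm_num), (Nat.div_add_mod i 9).symm⟩
    have e1 : (9 * q + d) / 9 = q := by omega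
    have e2 : (9 * q + d) % 9 = d := by omega
    rw [e1, e2]
    unfold X
    rw [sx_block sgn q d hd, cor.1 q d hd.le]
    rcases hs1 q with h | h <;> rw [h] <;> interval_cases d <;>
      norm_num [Finset.sum_range_succ] <;> omega
  · obtain ⟨q, d, hd, rfl⟩ : ∃ q d, d < 9 ∧ i = 9 * q + d :=
      ⟨i / 9, i % 9, Nat.mod_lt _ (by norm_num), (Nat.div_add_mod i 9).symm⟩
    have e1 : (9 * q + d) / 9 = q := by omega
    have e2 : (9 * q + d) % 9 = d := by omega
    have e3 : (9 * q + d) % 3 = d % 3 := by omega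
    rw [e1, e2, e3]
    unfold Y
    rw [sy_block sgn q d hd, cor.2 q d hd.le]
    rcases hs2 q with h | h <;> rw [h] <;> interval_cases d <;>
      norm_num [Finset.sum_range_succ] <;> omega

end Pool.Agent.QEP.H32
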