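import Pool.Agent.QEP.Stmts

/-!
# QEP, rows HOL and VLI
-/

set_option autoImplicit false

namespace Pool.Agent.QEP.H32

open Pool.Agent.QEP

theorem cx_pow (cor : CORStmt) (k q : ℕ) : cx (9 ^ k * q) = 3 ^ k * cx q := by
  induction k generalizing q with
  | zero => simp
  | succ k ih =>
    have h1 := cor.1 (9 ^ k * q) 0 (by norm_num)
    rw [Finset.sum_range_zero, mul_zero, add_zero, add_zero] at h1
    have h2 : 9 ^ (k + 1) * q = 9 * (9 ^ k * q) := by ring
    rw [h2, h1, ih]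
    ring

theorem cy_pow (cor : CORStmt) (k q : ℕ) : cy (9 ^ k * q) = 3 ^ k * cy q := by
  induction k generalizing q with
  | zero => simp
  | succ k ih =>
    have h1 := cor.2 (9 ^ k * q) 0 (by norm_num)
    rw [Finset.sum_range_zero, mul_zero, add_zero, add_zero] at h1
    have h2 : 9 ^ (k + 1) * q = 9 * (9 ^ k * q) := by ring
    rw [h2, h1, ih]
    ring

theorem BB_symm (i j : ℕ) : BB j i = -BB i j := by
  unfold BB
  ring

theorem chen (i j n : ℕ) : BB i n = BB i j + BB j n +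
    ((cx j - cx i) * (cy n - cy j) - (cy j - cy i) * (cx n - cx j)) := by
  unfold BB
  ring

theorem cross_le {a b c d M : ℤ} (ha : |a| ≤ M) (hb : |b| ≤ M) (hc : |c| ≤ M) (hd : |d| ≤ M) :
    |a * b - c * d| ≤ 2 * (M * M) := by
  have h1 : |a * b| ≤ M * M := by
    rw [abs_mul]
    exact mul_le_mul ha hb (abs_nonneg _) ((abs_nonneg _).trans ha)
  have h2 : |c * d| ≤ M * M := by
    rw [abs_mul]
    exact mul_le_mul hc hd (abs_nonneg _) ((abs_nonneg _).trans hc)
  refine (abs_sub _ _).trans ?_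
  linarith

theorem hol_aux (cor : CORStmt) (blk : BLKStmt) (k i j : ℕ) (hij : i ≤ j) (hj : j ≤ i + 9 ^ k) :
    |cx i - cx j| ≤ 2 * 3 ^ k ∧ |cy i - cy j| ≤ 2 * 3 ^ k ∧ |BB i j| ≤ 30 * 9 ^ k := by
  obtain ⟨b1, b2, b3, b4, b5⟩ := blk
  have h9 : (3 : ℤ) ^ k * 3 ^ k = 9 ^ k := by
    rw [← mul_pow]
    norm_num
  have hpos : (0 : ℤ) < 9 ^ k := by positivity
  obtain ⟨q, e, he, rfl⟩ : ∃ q e, e < 9 ^ k ∧ i = 9 ^ k * q + e :=
    ⟨i / 9 ^ k, i % 9 ^ k, Nat.mod_lt _ (by positivity), (Nat.div_add_mod i _).symm⟩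
  have hs : cx (9 ^ k * q) = 3 ^ k * cx q := cx_pow cor k q
  have hs' : cy (9 ^ k * q) = 3 ^ k * cy q := cy_pow cor k q
  have a1 := b1 k q e he.le
  have a2 := b2 k q e he.le
  have a3 := b3 k q e he.le
  rw [← hs] at a1
  rw [← hs'] at a2
  by_cases hc : j ≤ 9 ^ k * q + 9 ^ k
  · obtain ⟨e', he', rfl⟩ : ∃ e', e' ≤ 9 ^ k ∧ j = 9 ^ k * q + e' :=
      ⟨j - 9 ^ k * q, by omega, by omega⟩
    have c1 := b1 k q e' he'
    have c2 := b2 k q e' he'
    have c3 := b3 k q e' he'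
    rw [← hs] at c1
    rw [← hs'] at c2
    refine ⟨?_, ?_, ?_⟩
    · rw [abs_le] at a1 c1 ⊢
      constructor <;> linarith [a1.1, a1.2, c1.1, c1.2]
    · rw [abs_le] at a2 c2 ⊢
      constructor <;> linarith [a2.1, a2.2, c2.1, c2.2]
    · have h1 := chen (9 ^ k * q + e) (9 ^ k * q) (9 ^ k * q + e')
      have h2 := cross_le (a := cx (9 ^ k * q) - cx (9 ^ k * q + e))
        (b := cy (9 ^ k * q + e') - cy (9 ^ k * q)) (c := cy (9 ^ k * q) - cy (9 ^ k * q + e))
        (d := cx (9 ^ k * q + e') - cx (9 ^ k * q)) (M := 3 ^ k)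
        (by rw [abs_sub_comm]; exact a1) c2 (by rw [abs_sub_comm]; exact a2) c1
      rw [h9] at h2
      rw [BB_symm (9 ^ k * q) (9 ^ k * q + e)] at h1
      rw [abs_le] at a3 c3 h2 ⊢
      constructor <;> linarith [a3.1, a3.2, c3.1, c3.2, h2.1, h2.2]
  · obtain ⟨e', he', rfl⟩ : ∃ e', e' ≤ 9 ^ k ∧ j = 9 ^ k * (q + 1) + e' := by
      have h1 : 9 ^ k * (q + 1) = 9 ^ k * q + 9 ^ k := by ring
      exact ⟨j - 9 ^ k * (q + 1), by omega, by omega⟩
    have hq : cx (9 ^ k * (q + 1)) = 3 ^ k * cx (q + 1) := cx_pow cor k (q + 1)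
    have hq' : cy (9 ^ k * (q + 1)) = 3 ^ k * cy (q + 1) := cy_pow cor k (q + 1)
    have c1 := b1 k (q + 1) e' he'
    have c2 := b2 k (q + 1) e' he'
    have c3 := b3 k (q + 1) e' he'
    rw [← hq] at c1
    rw [← hq'] at c2
    have d1 := b4 k q e he.le
    have d2 := b5 k q e he.le
    rw [← hq] at d1
    rw [← hq'] at d2
    have f1 := b1 k q (9 ^ k) le_rfl
    have f2 := b2 k q (9 ^ k) le_rfl
    have f3 := b3 k q (9 ^ k) le_rfl
    rw [← hs] at f1
    rw [← hs'] at f2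
    have e1 : 9 ^ k * q + 9 ^ k = 9 ^ k * (q + 1) := by ring
    rw [e1] at f1 f2 f3
    refine ⟨?_, ?_, ?_⟩
    · rw [abs_le] at d1 c1 ⊢
      constructor <;> linarith [d1.1, d1.2, c1.1, c1.2]
    · rw [abs_le] at d2 c2 ⊢
      constructor <;> linarith [d2.1, d2.2, c2.1, c2.2]
    · have h1 := chen (9 ^ k * q + e) (9 ^ k * (q + 1)) (9 ^ k * (q + 1) + e')
      have h2 := cross_le (a := cx (9 ^ k * (q + 1)) - cx (9 ^ k * q + e))
        (b := cy (9 ^ k * (q + 1) + e') - cy (9 ^ k * (q + 1)))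
        (c := cy (9 ^ k * (q + 1)) - cy (9 ^ k * q + e))
        (d := cx (9 ^ k * (q + 1) + e') - cx (9 ^ k * (q + 1))) (M := 3 ^ k)
        (by rw [abs_sub_comm]; exact d1) c2 (by rw [abs_sub_comm]; exact d2) c1
      have h3 := chen (9 ^ k * q + e) (9 ^ k * q) (9 ^ k * (q + 1))
      have h4 := cross_le (a := cx (9 ^ k * q) - cx (9 ^ k * q + e))
        (b := cy (9 ^ k * (q + 1)) - cy (9 ^ k * q)) (c := cy (9 ^ k * q) - cy (9 ^ k * q + e))
        (d := cx (9 ^ k * (q + 1)) - cx (9 ^ k * q)) (M := 3 ^ k)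
        (by rw [abs_sub_comm]; exact a1) f2 (by rw [abs_sub_comm]; exact a2) f1
      rw [h9] at h2 h4
      rw [BB_symm (9 ^ k * q) (9 ^ k * q + e)] at h3
      rw [abs_le] at a3 c3 f3 h2 h4 ⊢
      constructor <;> linarith [a3.1, a3.2, c3.1, c3.2, h2.1, h2.2, f3.1, f3.2, h4.1, h4.2]

theorem hol (cor : CORStmt) (blk : BLKStmt) : HOLStmt := by
  intro k i j hij
  have hc : (((9 : ℕ) ^ k : ℕ) : ℤ) = 9 ^ k := by push_cast; rfl
  rw [← hc, abs_le] at hij
  rcases le_total i j with h | h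
  · exact hol_aux cor blk k i j h (by omega)
  · obtain ⟨h1, h2, h3⟩ := hol_aux cor blk k j i h (by omega)
    refine ⟨?_, ?_, ?_⟩
    · rw [abs_sub_comm]; exact h1
    · rw [abs_sub_comm]; exact h2
    · rw [BB_symm j i, abs_neg]; exact h3

theorem min_lip (a b c : ℝ) : |min a c - min b c| ≤ |a - b| := by
  rw [abs_le]
  constructor
  · have h1 := neg_abs_le (a - b)
    have h2 : min b c ≤ min a c + |a - b| := by
      rcases le_total a c with h | h
      · rw [min_eq_left h]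
        exact (min_le_left b c).trans (by linarith)
      · rw [min_eq_right h]
        exact (min_le_right b c).trans (by linarith [abs_nonneg (a - b)])
    linarith
  · have h1 := le_abs_self (a - b)
    have h2 : min a c ≤ min b c + |a - b| := by
      rcases le_total b c with h | h
      · rw [min_eq_left h]
        exact (min_le_left a c).trans (by linarith)
      · rw [min_eq_right h]
        exact (min_le_right a c).trans (by linarith [abs_nonneg (a - b)])
    linarith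

theorem inf_lip (s : Set ℕ) (i j : ℕ) :
    |Metric.infDist i s - Metric.infDist j s| ≤ |(i : ℝ) - j| := by
  have h1 := Metric.infDist_le_infDist_add_dist (s := s) (x := i) (y := j)
  have h2 := Metric.infDist_le_infDist_add_dist (s := s) (x := j) (y := i)
  rw [dist_comm j i] at h2
  rw [← Nat.dist_eq i j, abs_le]
  constructor <;> linarith

theorem vli : VLIStmt := by
  have hpos : ∀ k : ℕ, (0 : ℝ) < 9 ^ k := fun k => by positivity
  have hn : ∀ (k i : ℕ) (s : Set ℕ), 0 ≤ min (Metric.infDist i s) (9 ^ k) :=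
    fun k i s => le_min Metric.infDist_nonneg (hpos k).le
  have hm : ∀ (k i : ℕ) (s : Set ℕ), min (Metric.infDist i s) (9 ^ k) ≤ 9 ^ k :=
    fun k i s => min_le_right _ _
  refine ⟨?_, ?_, ?_, ?_⟩
  · intro P k i
    unfold vv
    rw [abs_div, abs_of_pos (hpos k), div_le_one (hpos k), abs_le]
    constructor
    · linarith [hn k i {j : ℕ | P (j / 9 ^ k) % 3 = 0}, hm k i {j : ℕ | P (j / 9 ^ k) % 3 = 2}]
    · linarith [hm k i {j : ℕ | P (j / 9 ^ k) % 3 = 0}, hn k i {j : ℕ | P (j / 9 ^ k) % 3 = 2}]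
  · intro P k i j
    unfold vv
    rw [← sub_div, abs_div, abs_of_pos (hpos k)]
    apply div_le_div_of_nonneg_right _ (hpos k).le
    have h1 := (min_lip (Metric.infDist i {j : ℕ | P (j / 9 ^ k) % 3 = 0})
      (Metric.infDist j {j : ℕ | P (j / 9 ^ k) % 3 = 0}) (9 ^ k)).trans (inf_lip _ i j)
    have h2 := (min_lip (Metric.infDist i {j : ℕ | P (j / 9 ^ k) % 3 = 2})
      (Metric.infDist j {j : ℕ | P (j / 9 ^ k) % 3 = 2}) (9 ^ k)).trans (inf_lip _ i j)
    rw [abs_le] at h1 h2 ⊢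
    constructor <;> linarith [h1.1, h1.2, h2.1, h2.2]
  · intro P k i h
    unfold vv
    have h1 : Metric.infDist i {j : ℕ | P (j / 9 ^ k) % 3 = 2} = 0 :=
      Metric.infDist_zero_of_mem h
    rw [h1, min_eq_left (hpos k).le, sub_zero]
  · intro P k i h
    unfold vv
    have h1 : Metric.infDist i {j : ℕ | P (j / 9 ^ k) % 3 = 0} = 0 :=
      Metric.infDist_zero_of_mem h
    rw [h1, min_eq_left (hpos k).le, zero_sub, neg_div]

end Pool.Agent.QEP.H32
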